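import Pool.Agent.H81.SC.Exist
import Pool.Agent.H81.SC.Data

namespace Pool.Agent.Results.MP_b0843d_ag.AffineModifications

open Polynomial Pool.Agent.H81.SC

/-- Jelonek's property fails for affine modifications `X = (Y ∖ G) ∪ E°` of normal affine
surfaces `Y = Spec A`, where `G = {g = 0}` is an irreducible curve parametrised by the line with
a cusp and `E` is an exceptional curve over another point of `G`. This applies to all cones over
Seifert spheres, that is, to the surfaces that are the smooth acyclic surfaces of logarithmic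
Kodaira dimension one. -/
theorem result :
    (∀ {A F : Type} [CommRing A] [IsDomain A] [IsIntegrallyClosed A] [Field F] [Algebra A F]
      [IsFractionRing A F] [Algebra ℂ A] [Algebra ℂ F] [IsScalarTower ℂ A F]
      (φ : A →ₐ[ℂ] ℂ[X]) (g : A) (x₀ z₀ : ℂ), RingHom.ker φ = Ideal.span {g} → g ≠ 0 →
      z₀ ≠ x₀ → Cusp φ x₀ → Separates φ z₀ →
      ∀ (V : ValuationSubring F) (hV : Centred V φ g z₀), Fails g V hV.mem) ∧
    (∀ {ι F : Type} [Fintype ι] [DecidableEq ι] [Field F] [Algebra ℂ[X][X] F]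
      [IsFractionRing ℂ[X][X] F] [Algebra ℂ F] [IsScalarTower ℂ ℂ[X][X] F] (S : Seif ι),
      IsIntegrallyClosed S.Cone ∧ IsFractionRing S.Cone F ∧ Cusp S.res 0 ∧
      ∃ g : S.Cone, g ≠ 0 ∧ RingHom.ker S.res = Ideal.span {g} ∧ ∀ z₀ : ℂ, z₀ ≠ 0 →
        Separates S.res z₀ ∧
        (∃ V : ValuationSubring F, Centred V S.res g z₀ ∧ Uniformizer V g) ∧
        ∀ (V : ValuationSubring F) (hV : Centred V S.res g z₀), Fails g V hV.mem) ∧
    ∀ {ι : Type} [Fintype ι] [DecidableEq ι] (o : ι) (p : ι → ℂ) (m : ι → ℕ),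
      Function.Injective p → 3 ≤ Fintype.card ι → 1 ≤ m o → (∀ i, i ≠ o → 2 ≤ m i) →
      (∀ i j, i ≠ j → Nat.Coprime (m i) (m j)) →
      ∃ S : Seif ι, S.o = o ∧ S.p = p ∧ S.m = m := by
  refine ⟨?_, ?_, ?_⟩
  · intro A F _ _ _ _ _ _ _ _ _ φ g x₀ z₀ hφ hg hne hcusp hsep V hV
    exact modif_fails φ hφ hg hne hcusp hsep V hV
  · intro ι F _ _ _ _ _ _ _ S
    refine ⟨S.isIntegrallyClosed', S.isFractionRing', S.cusp_res, S.g, S.g_ne_zero, S.ker_res_g,
      fun z₀ hz₀ => ⟨S.sep_res hz₀, S.exists_centred hz₀, ?_⟩⟩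
    intro V hV
    exact S.fails S.g_ne_zero S.ker_res_g hz₀ V hV
  · intro ι _ _ o p m hp hc h1 h2 hco
    exact exists_seif o p m hp hc h1 h2 hco

end Pool.Agent.Results.MP_b0843d_ag.AffineModifications
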