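import Pool.Agent.H81.PC.Cusp

namespace Pool.Agent.Results.MP_b0843d_ag.CuspidalCompletions

open Polynomial Pool.Agent.H81.PC

/-- Let `X = Spec B` be a factorial affine variety that is the complement of an irreducible
closed set `G = V(𝔭)` in a normal affine variety `Spec A`. If some `p` in `A` and `q` in `B`
define a proper map on `X`, then every prime divisor of `Spec A` meets `G` in the zero set of
a regular function. Hence `X` fails Jelonek's property if `G` is a curve parametrised by the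
line with a cusp that lies outside the convex hull of its intersection with some prime
divisor. -/
theorem result {A F : Type} [CommRing A] [IsDomain A] [IsNoetherianRing A]
    [IsIntegrallyClosed A] [Field F] [Algebra A F] [IsFractionRing A F] [Algebra ℂ A]
    [Algebra ℂ F] [IsScalarTower ℂ A F] (𝔭 : Ideal A) (B : Subalgebra A F)
    (hc : IsComplement 𝔭 B) [UniqueFactorizationMonoid B] :
    (∀ (p : A) (q : B), ProperPair ℂ (algebraMap A B p) q →
      ∀ 𝔢 : Ideal A, 𝔢.IsPrime → 𝔢.height = 1 → 𝔢 ≠ 𝔭 →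
        ∃ τ : A, ∀ 𝔪 : Ideal A, 𝔪.IsPrime → 𝔭 ≤ 𝔪 → (τ ∈ 𝔪 ↔ 𝔢 ≤ 𝔪)) ∧
    ∀ (φ : A →ₐ[ℂ] ℂ[X]) (x₀ : ℂ) (𝔢 : Ideal A), RingHom.ker φ = 𝔭 →
      (∀ f : A, (derivative (φ f)).eval x₀ = 0) → 𝔢.IsPrime → 𝔢.height = 1 →
      {z : ℂ | ∀ f ∈ 𝔢, (φ f).eval z = 0}.Nonempty →
      x₀ ∉ convexHull ℝ {z : ℂ | ∀ f ∈ 𝔢, (φ f).eval z = 0} →
      (∀ (p : A) (q : B), ¬ ProperPair ℂ (algebraMap A B p) q) ∧ ¬ PropertyP ℂ B := by
  refine ⟨fun p q hpq 𝔢 h𝔢 h1 hne => inter_principal hc hpq 𝔢 h1 hne, ?_⟩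
  intro φ x₀ 𝔢 hφ hcusp h𝔢 h1 hne hconv
  have key : ∀ (p : A) (q : B), ¬ ProperPair ℂ (algebraMap A B p) q := fun p q =>
    not_proper_of_cusp hc φ hφ x₀ hcusp 𝔢 h1 hne hconv p q
  refine ⟨key, fun hP => ?_⟩
  have hinj : Function.Injective (algebraMap A F) := IsFractionRing.injective A F
  have h𝔢0 : 𝔢 ≠ ⊥ := by
    rintro rfl
    rw [Ideal.height_bot] at h1
    exact zero_ne_one h1
  obtain ⟨f, hf, hf0⟩ := Submodule.exists_mem_ne_zero_of_ne_bot h𝔢0
  have hnc : NonConst ℂ (algebraMap A B f) := by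
    intro a ha
    have h2 : algebraMap A F f = algebraMap A F (algebraMap ℂ A a) := by
      rw [← IsScalarTower.algebraMap_apply ℂ A F]
      exact congrArg Subtype.val ha
    have h3 := hinj h2
    by_cases ha0 : a = 0
    · rw [ha0, map_zero] at h3
      exact hf0 h3
    · apply h𝔢.ne_top
      rw [Ideal.eq_top_iff_one]
      have h4 : algebraMap ℂ A a⁻¹ * f = 1 := by
        rw [h3, ← map_mul, inv_mul_cancel₀ ha0, map_one]
      rw [← h4]
      exact 𝔢.mul_mem_left _ hf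
  obtain ⟨q, hq⟩ := hP _ hnc
  exact key f q hq

end Pool.Agent.Results.MP_b0843d_ag.CuspidalCompletions
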