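import Pool.Agent.H81.RS.Main
import Pool.Agent.H81.RS.Exist

namespace Pool.Agent.Results.MP_b0843d_ag.CuspidalCubicPlanes

open Polynomial Pool.Agent.H81.RS

/-- The surfaces obtained from a cuspidal cubic and a curve of degree `m` that meets it in two
points, by keeping one exceptional curve over one of the two points, fail Jelonek's property. -/
theorem result (F : Type) [Field F] [Algebra ℂ F] [Algebra ℂ[X][X] F]
    [IsScalarTower ℂ ℂ[X][X] F] [IsFractionRing ℂ[X][X] F] :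
    (∀ S : Conf ℂ, (S.m * S.b = 3 * S.μ * S.a + 1 ∨ S.m * S.b + 1 = 3 * S.μ * S.a) →
      (∀ p q : reg S F, NoPole S (p : F) → ¬ ProperPair ℂ p q) ∧
      (∃ p : reg S F, NoPole S (p : F) ∧ NonConst ℂ p) ∧
      ¬ PropertyP ℂ (reg S F)) ∧
    ∀ m μ a b : ℕ, 0 < μ → μ < 3 * m → 0 < a → μ * a ≤ b →
      ∃ S : Conf ℂ, S.m = m ∧ S.μ = μ ∧ S.a = a ∧ S.b = b := by
  refine ⟨?_, fun m μ a b h1 h2 h3 h4 => exists_conf m μ a b h1 h2 h3 h4⟩
  intro S hS
  have hμ := S.μ_lt
  have ha := S.a_pos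
  have hbp := S.b_pos
  have hm := S.m_pos
  have hμ' : S.μ + 1 ≤ 3 * S.m := hμ
  have hμa : (S.μ + 1) * S.a ≤ 3 * S.m * S.a := Nat.mul_le_mul_right _ hμ'
  have hb : S.b < 9 * S.a := by
    by_contra hcon
    push Not at hcon
    have h1 : S.m * (9 * S.a) ≤ S.m * S.b := Nat.mul_le_mul_left _ hcon
    rcases hS with h | h <;> nlinarith
  have hne : S.m * S.b ≠ 3 * S.μ * S.a := by
    rcases hS with h | h <;> omega
  have hp : ∃ p : reg S F, NoPole S (p : F) ∧ NonConst ℂ p := by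
    rcases hS with h | h
    · exact exists_noPole_pos S (by omega)
    · exact exists_noPole_neg S h (by omega) (by omega) (by omega)
  refine ⟨fun p q hpp => not_proper S hb hne p q hpp, hp, ?_⟩
  intro hP
  obtain ⟨p, hp1, hp2⟩ := hp
  obtain ⟨q, hq⟩ := hP p hp2
  exact not_proper S hb hne p q hp1 hq

end Pool.Agent.Results.MP_b0843d_ag.CuspidalCubicPlanes
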